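import Pool.Agent.Lib.H97Cap.Sigma

/-!
MP_075530_lc, partial result: under uniformization of Sigma^1_m by Sigma^1_m, measurability of all
Sigma^1_m sets is equivalent to their capacitability with respect to all Sigma^1_m random sets.
-/

namespace Pool.Agent.Results.MP_075530_lc.Capacitability

open MeasureTheory Set Topology H97Proj

/-- Let `m ≥ 1` and suppose that every boldface Sigma^1_m relation on the reals has a Sigma^1_m
uniformization. Then every Sigma^1_m set of reals is Lebesgue measurable if and only if for all
Sigma^1_m sets `A` (of reals) and `N` (of pairs) there are countably many compact subsets `P i` of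
`A` such that almost every `y` for which `(x, y) ∈ N` for some `x ∈ A` satisfies `(x, y) ∈ N` for
some `x` in some `P i`. -/
theorem result (m : ℕ) (hm : 1 ≤ m)
    (hU : ∀ R : Set (Baire × Baire), IsSigma m (Baire × Baire) R →
      ∃ S ⊆ R, IsSigma m (Baire × Baire) S ∧
        ∀ x, (∃ y, (x, y) ∈ R) → ∃! y, (x, y) ∈ S) :
    (∀ A : Set Baire, IsSigma m Baire A → NullMeasurableSet A lam) ↔
      ∀ N : Set (Baire × Baire), IsSigma m (Baire × Baire) N →
        ∀ A : Set Baire, IsSigma m Baire A →
          ∃ P : ℕ → Set Baire, (∀ i, IsCompact (P i)) ∧ (∀ i, P i ⊆ A) ∧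
            lam ({y | ∃ x ∈ A, (x, y) ∈ N} \ ⋃ i, {y | ∃ x ∈ P i, (x, y) ∈ N}) = 0 :=
  H97Cap.measurable_iff_capacitable hm hU

/-! ### The global form, for the reader -/

/-- Under global Sigma-uniformization (boldface form) all projective sets of reals are Lebesgue
measurable if and only if all projective sets of reals are capacitable with respect to all
projective random sets. -/
theorem projective
    (hU : ∀ m, 2 ≤ m → ∀ R : Set (Baire × Baire), IsSigma m (Baire × Baire) R →
      ∃ S ⊆ R, IsSigma m (Baire × Baire) S ∧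
        ∀ x, (∃ y, (x, y) ∈ R) → ∃! y, (x, y) ∈ S) :
    (∀ m, ∀ A : Set Baire, IsSigma m Baire A → NullMeasurableSet A lam) ↔
      ∀ m, ∀ N : Set (Baire × Baire), IsSigma m (Baire × Baire) N →
        ∀ A : Set Baire, IsSigma m Baire A →
          ∃ P : ℕ → Set Baire, (∀ i, IsCompact (P i)) ∧ (∀ i, P i ⊆ A) ∧
            lam ({y | ∃ x ∈ A, (x, y) ∈ N} \ ⋃ i, {y | ∃ x ∈ P i, (x, y) ∈ N}) = 0 := by
  constructor
  · intro h m N hN A hA
    exact (result (m + 2) (by omega) (hU (m + 2) (by omega))).1 (h (m + 2)) N
      (isSigma_mono (by omega) hN) A (isSigma_mono (by omega) hA)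
  · intro h m A hA
    exact (result (m + 2) (by omega) (hU (m + 2) (by omega))).2 (h (m + 2)) A
      (isSigma_mono (by omega) hA)

end Pool.Agent.Results.MP_075530_lc.Capacitability
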